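import Pool.Agent.TH823.Fam.Fam2

/-!
# Joint correlations of the von Mangoldt and Liouville functions with one shift from a family of nearly
minimal additive energy

The exponential sum bounds for the Liouville function (Davenport's theorem with arbitrary powers of the
logarithm), the bilinear inequality for families of shifts and the moments of Weyl sums are from the
starting files (`Pool.Agent.H807R2.Dav`, `Pool.Agent.H373R2`).
From Mathlib: `Polynomial ℤ`: the polynomials with integer coefficients; `f.eval m`: the value at `m`.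
-/

set_option autoImplicit false

namespace Pool.Agent.Results.MP_e6fa8b_nt.FamiliesOfShifts

open Finset

/-- The Liouville function on the integers, `0` at the integers `m ≤ 0`, with complex values. -/
noncomputable def lam (m : ℤ) : ℂ := if 1 ≤ m then (-1) ^ ArithmeticFunction.cardFactors m.toNat else 0

/-- The additive energy of order `p` of the family `s 1, ..., s x`: the number of the solutions of
`s (v 1) + ... + s (v p) = s (w 1) + ... + s (w p)` with all `v i`, `w i` in `{1, ..., x}`. -/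
def energy (p x : ℕ) (s : ℕ → ℤ) : ℕ :=
  (((Fintype.piFinset fun _ : Fin p => Icc 1 x) ×ˢ (Fintype.piFinset fun _ : Fin p => Icc 1 x)).filter
    (fun q => ∑ i, s (q.1 i) = ∑ i, s (q.2 i))).card

open Classical in
/-- The number of the `m` in `{1, ..., x}` with the property `E`. -/
noncomputable def num (x : ℕ) (E : ℕ → Prop) : ℝ := (((Icc 1 x).filter E).card : ℝ)

lemma num_mono {x : ℕ} {E F : ℕ → Prop} (h : ∀ m ∈ Icc 1 x, E m → F m) : num x E ≤ num x F := by
  classical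
  unfold num
  apply Nat.cast_le.2
  apply card_le_card
  intro m hm
  rw [mem_filter] at hm ⊢
  exact ⟨hm.1, h m hm.1 hm.2⟩

lemma num_eq (x : ℕ) (E : ℕ → Prop) [DecidablePred E] : num x E = (((Icc 1 x).filter E).card : ℝ) := by
  unfold num
  congr!

lemma general (r p B C T U : ℕ) :
    ∃ N₀ : ℕ, ∀ N : ℕ, N₀ ≤ N → ∀ (x : ℕ) (s : ℕ → ℤ), (∀ m ∈ Icc 1 x, |s m| ≤ B * N) →
      (energy p x s : ℝ) * N ≤ Real.log N ^ C * (x : ℝ) ^ (2 * p) →
      ∀ L : ℕ, (L : ℝ) ≤ Real.log N ^ T → ∀ (α : Fin L → ℕ) (a h : Fin L → Fin r → ℕ) (θ : Fin L → ℕ → ℂ),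
        (∀ l, 1 ≤ α l) → (∀ l i, a l i ≤ N ^ B ∧ h l i ≤ N ^ B) → (∀ l n, ‖θ l n‖ ≤ 1) →
        num x (fun m => ¬ ∀ l, ∀ X : ℕ, α l * X ≤ B * N →
          ‖∑ n ∈ Icc 1 X, θ l n * (∏ i, (ArithmeticFunction.vonMangoldt (a l i * n + h l i) : ℂ)) *
            lam (α l * n + s m)‖ ≤ N / Real.log N ^ U) ≤ x / Real.log N ^ U := by
  classical
  obtain ⟨N₀, h0⟩ := Pool.Agent.TH823.Fam.fam_all Pool.Agent.H373R2.T7.liR Pool.Agent.H373R2.T7.liR_norm
    Pool.Agent.H373R2.T7.sup_liou p B C (T + 2 * r) U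
  refine ⟨N₀ + B + 3 ^ (B + 2) + 3, fun N hN x s hs hE L hL α a h θ hα hah hθ => ?_⟩
  obtain ⟨P3, hP3⟩ : ∃ P3 : ℕ, P3 = 3 ^ (B + 2) := ⟨_, rfl⟩
  rw [← hP3] at hN
  have hN0 : (0 : ℝ) < N := by exact_mod_cast (by omega : 0 < N)
  have hlogB : ((B + 2 : ℕ) : ℝ) ≤ Real.log N := by
    rw [Real.le_log_iff_exp_le hN0]
    have h1 : Real.exp ((B + 2 : ℕ) : ℝ) ≤ (3 : ℝ) ^ (B + 2) := by
      rw [show ((B + 2 : ℕ) : ℝ) = ((B + 2 : ℕ) : ℝ) * 1 by ring, Real.exp_nat_mul]
      exact pow_le_pow_left₀ (Real.exp_pos _).le (by linarith [Real.exp_one_lt_d9]) _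
    refine h1.trans ?_
    exact_mod_cast (by rw [← hP3]; omega : 3 ^ (B + 2) ≤ N)
  have hlog1 : 1 ≤ Real.log N := by
    have : (1 : ℝ) ≤ ((B + 2 : ℕ) : ℝ) := by exact_mod_cast (by omega : 1 ≤ B + 2)
    linarith
  have hΛ : ∀ l i n, n ≤ B * N → |ArithmeticFunction.vonMangoldt (a l i * n + h l i)| ≤ Real.log N ^ 2 := by
    intro l i n hn
    rw [abs_of_nonneg ArithmeticFunction.vonMangoldt_nonneg]
    refine ArithmeticFunction.vonMangoldt_le_log.trans ?_
    have e1 : a l i * n + h l i ≤ N ^ (B + 2) := by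
      calc a l i * n + h l i ≤ N ^ B * (B * N) + N ^ B := add_le_add (Nat.mul_le_mul (hah l i).1 hn) (hah l i).2
        _ ≤ N ^ B * (B * N) + N ^ B * N := by
            apply add_le_add le_rfl (Nat.le_mul_of_pos_right _ (by omega))
        _ = N ^ B * ((B + 1) * N) := by ring
        _ ≤ N ^ B * (N * N) := Nat.mul_le_mul_left _ (Nat.mul_le_mul_right _ (by omega))
        _ = _ := by rw [pow_add]; ring
    rcases Nat.eq_zero_or_pos (a l i * n + h l i) with h0 | h0
    · rw [h0]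
      simp only [Nat.cast_zero, Real.log_zero]
      positivity
    · have e2 : Real.log ((a l i * n + h l i : ℕ) : ℝ) ≤ Real.log ((N ^ (B + 2) : ℕ) : ℝ) :=
        Real.log_le_log (by exact_mod_cast h0) (by exact_mod_cast e1)
      refine e2.trans ?_
      rw [Nat.cast_pow, Real.log_pow, pow_two]
      exact mul_le_mul_of_nonneg_right hlogB (by linarith)
  have hLT : (L : ℝ) ≤ Real.log N ^ (T + 2 * r) := hL.trans (pow_le_pow_right₀ hlog1 (by omega))
  refine le_trans (le_of_eq (num_eq _ _)) (h0 N (by omega) x s hs hE L hLT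
    (fun l => if hl : l < L then α ⟨l, hl⟩ else 1)
    (fun l n => if hl : l < L then θ ⟨l, hl⟩ n *
      ∏ i, (ArithmeticFunction.vonMangoldt (a ⟨l, hl⟩ i * n + h ⟨l, hl⟩ i) : ℂ) else 0) (by
      intro l hl
      simp only [hl, dif_pos]
      exact hα _) (by
      intro l hl n hn1 hn2
      simp only [hl, dif_pos] at hn2 ⊢
      have hnB : n ≤ B * N := le_trans (Nat.le_mul_of_pos_left _ (hα _)) hn2
      rw [norm_mul, norm_prod]
      have e1 : ∏ i, ‖(ArithmeticFunction.vonMangoldt (a ⟨l, hl⟩ i * n + h ⟨l, hl⟩ i) : ℂ)‖ ≤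
          ∏ _i : Fin r, Real.log N ^ 2 := by
        apply prod_le_prod (fun _ _ => norm_nonneg _)
        intro i _
        rw [Complex.norm_real, Real.norm_eq_abs]
        exact hΛ _ i _ hnB
      rw [prod_const, card_univ, Fintype.card_fin, ← pow_mul] at e1
      calc _ ≤ 1 * Real.log N ^ (2 * r) := mul_le_mul (hθ _ _) e1 (prod_nonneg fun _ _ => norm_nonneg _) zero_le_one
        _ = Real.log N ^ (2 * r) := one_mul _
        _ ≤ _ := pow_le_pow_right₀ hlog1 (by omega))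
    (fun m => ¬ ∀ l, ∀ X : ℕ, α l * X ≤ B * N →
          ‖∑ n ∈ Icc 1 X, θ l n * (∏ i, (ArithmeticFunction.vonMangoldt (a l i * n + h l i) : ℂ)) *
            lam (α l * n + s m)‖ ≤ N / Real.log N ^ U) (by
    intro m _ hm
    push Not at hm
    obtain ⟨l, X, hX, h2⟩ := hm
    refine ⟨l, l.2, X, ?_, lt_of_lt_of_eq h2 ?_⟩
    · simp only [l.2, dif_pos]
      exact hX
    · simp only [l.2, dif_pos]
      congr 1))

/-- Let `r`, `B`, `C`, `T` and `U` be fixed and let `N` be large. For each of at most `log ^ T N` indices `l` let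
`α l ≥ 1`, let `a l i n + h l i` for `i < r` be arbitrary linear forms with non-negative coefficients `≤ N ^ B`, and
let `θ l : ℕ → ℂ` be an arbitrary function bounded by `1` (for example a product `∏ j, λ (n + h' j)`).

* Let `s 1, ..., s x` be an arbitrary family of integers in `[-B N, B N]` with an additive energy of some
  fixed order `p` of at most `log ^ C N` times the minimal possible size `x ^ (2 p) / N`. Then, for all the
  `m ≤ x` with at most `x / log ^ U N` exceptions, the shift `h = s m` satisfies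
  `|∑ n ≤ X, θ l n * (∏ i, Λ (a l i * n + h l i)) * λ (α l * n + h)| ≤ N / log ^ U N`
  for all `l` and all `X ≤ B N / α l`.
* In particular this holds for the shifts `h = c + f m`, `m ≤ x`, where `f` is a fixed nonconstant
  polynomial with integer coefficients, of degree `d`, `N / log ^ C N ≤ x ^ d ≤ B N` and `|c| ≤ B N`. -/
theorem result (r B C T U : ℕ) :
    (∀ p : ℕ, ∃ N₀ : ℕ, ∀ N : ℕ, N₀ ≤ N → ∀ (x : ℕ) (s : ℕ → ℤ), (∀ m ∈ Icc 1 x, |s m| ≤ B * N) →
      (energy p x s : ℝ) * N ≤ Real.log N ^ C * (x : ℝ) ^ (2 * p) →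
      ∀ L : ℕ, (L : ℝ) ≤ Real.log N ^ T → ∀ (α : Fin L → ℕ) (a h : Fin L → Fin r → ℕ) (θ : Fin L → ℕ → ℂ),
        (∀ l, 1 ≤ α l) → (∀ l i, a l i ≤ N ^ B ∧ h l i ≤ N ^ B) → (∀ l n, ‖θ l n‖ ≤ 1) →
        num x (fun m => ¬ ∀ l, ∀ X : ℕ, α l * X ≤ B * N →
          ‖∑ n ∈ Icc 1 X, θ l n * (∏ i, (ArithmeticFunction.vonMangoldt (a l i * n + h l i) : ℂ)) *
            lam (α l * n + s m)‖ ≤ N / Real.log N ^ U) ≤ x / Real.log N ^ U) ∧
    (∀ f : Polynomial ℤ, 1 ≤ f.natDegree → ∃ N₀ : ℕ, ∀ N : ℕ, N₀ ≤ N → ∀ x : ℕ,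
      x ^ f.natDegree ≤ B * N → (N : ℝ) ≤ Real.log N ^ C * (x : ℝ) ^ f.natDegree → ∀ c : ℤ, |c| ≤ B * N →
      ∀ L : ℕ, (L : ℝ) ≤ Real.log N ^ T → ∀ (α : Fin L → ℕ) (a h : Fin L → Fin r → ℕ) (θ : Fin L → ℕ → ℂ),
        (∀ l, 1 ≤ α l) → (∀ l i, a l i ≤ N ^ B ∧ h l i ≤ N ^ B) → (∀ l n, ‖θ l n‖ ≤ 1) →
        num x (fun m => ¬ ∀ l, ∀ X : ℕ, α l * X ≤ B * N →
          ‖∑ n ∈ Icc 1 X, θ l n * (∏ i, (ArithmeticFunction.vonMangoldt (a l i * n + h l i) : ℂ)) *
            lam (α l * n + (c + f.eval (m : ℤ)))‖ ≤ N / Real.log N ^ U) ≤ x / Real.log N ^ U) := by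
  classical
  refine ⟨fun p => general r p B C T U, fun f hd => ?_⟩
  obtain ⟨p, B', hB', N1, h1⟩ := Pool.Agent.TH823.Fam.poly_family f hd B C
  obtain ⟨N2, h2⟩ := general r p B' (C + 1) T U
  refine ⟨N1 + N2 + 1, fun N hN x hx1 hx2 c hc L hL α a h θ hα hah hθ => ?_⟩
  obtain ⟨h3, h4⟩ := h1 N (by omega) x hx1 hx2 c hc
  have hNB : N ^ B ≤ N ^ B' := Nat.pow_le_pow_right (by omega) hB'
  refine le_trans ?_ (h2 N (by omega) x (fun m => c + f.eval (m : ℤ)) h3 h4 L hL α a h θ hα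
    (fun l i => ⟨(hah l i).1.trans hNB, (hah l i).2.trans hNB⟩) hθ)
  apply num_mono
  intro m _ hm hcon
  exact hm fun l X hX => hcon l X (hX.trans (Nat.mul_le_mul_right _ hB'))

end Pool.Agent.Results.MP_e6fa8b_nt.FamiliesOfShifts
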