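import Pool.Agent.TH573.HY.Main

/-!
# Joint correlations of the von Mangoldt function with almost every modification of the Liouville
function on one extremely sparse set of primes

There is a set `Q` of primes, so sparse that the sum of the reciprocals of its members up to `y` is
`O((log* y)^2)` (`log*` is the iterated logarithm), with the following property. Let `g` be any
completely multiplicative function with values `1` and `-1`, for instance the Liouville function,
and choose the signs at the primes of `Q` at random. Almost surely the resulting completely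
multiplicative function `f`, which agrees with `g` at all primes outside `Q`, satisfies
`∑_{n ≤ x} ∏_{h ∈ A} Λ(n+h) ∏_{t ∈ T} f(n+t) = o(x)` for ALL finite sets of shifts `A`, `T` with `T`
nonempty and disjoint from `A` (theorem `shifts`), also in arithmetic progressions and with bounded
weights. This is the case `ℓ ≥ 1` of the conjecture, with `f` in the place of the Liouville
function. More generally (theorem `result`) the same holds for the von Mangoldt function at the
values of several irreducible polynomials, and the function `f` at the values of one polynomial.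

Method: the moment method for random signs (helper220, starting files), now with weights which are
not bounded: the places `n` at which a value `p(n)` has a prime factor up to a small power of `x`
contribute little, and the upper bound sieve (Brun), applied in every residue class modulo the
squares of the primes of `Q` below `(log x)/16`, together with Mertens' theorem for the roots of
irreducible polynomials (starting files), bounds the rest without loss.
-/

set_option autoImplicit false

namespace Pool.Agent.Results.MP_e6fa8b_nt.RandomThinSigns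

open Polynomial Finset Filter MeasureTheory Pool.Agent.H220M
open Pool.Agent.TH573.SM (tower)
open ArithmeticFunction (vonMangoldt)

open Classical in
theorem result : ∃ Q : Set ℕ, (∀ q ∈ Q, q.Prime) ∧
    (∃ K : ℝ, ∀ n : ℕ, ∑ q ∈ (Icc 1 (tower n)).filter (fun q => q ∈ Q), (1 : ℝ) / q ≤ K * n ^ 2) ∧
    ∀ g : ℕ →*₀ ℤ, (∀ p : ℕ, p.Prime → g p = 1 ∨ g p = -1) →
    ∀ v : ℕ → ℕ → ℝ, (∀ s n, |v s n| ≤ 1) →
    ∀ᵐ ω ∂coins, ∃! f : ℕ →*₀ ℤ, IsModif g Q ω f ∧
      ∀ Ps : Finset ℤ[X], (∀ p ∈ Ps, Irreducible p ∧ 0 < p.natDegree) →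
        (∀ p ∈ Ps, ∀ p' ∈ Ps, p ≠ p' → ¬ Associated p p') → ∀ F : ℤ[X],
        (¬ ∃ (c : ℤ) (S : Finset ℤ[X]) (G : ℤ[X]), S ⊆ Ps ∧
          F = C c * (∏ p ∈ S, p) * G ^ 2) → ∀ s a b : ℕ,
        Tendsto (fun x : ℕ => (∑ n ∈ (Icc 1 x).filter (fun n => n ≡ a [MOD b]), v s n *
          (∏ p ∈ Ps, vonMangoldt (p.eval (n : ℤ)).natAbs) *
          ((f (F.eval (n : ℤ)).natAbs : ℤ) : ℝ)) / x) atTop (nhds 0) := by
  refine ⟨Pool.Agent.TH573.SM.sparse, fun q hq => hq.1, ?_, fun g hg v hv => ?_⟩
  · obtain ⟨K, hK⟩ := Pool.Agent.TH573.SM.sparse_sum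
    refine ⟨K, fun n => ?_⟩
    refine le_trans (Finset.sum_le_sum_of_subset_of_nonneg ?_ fun q _ _ => by positivity) (hK n)
    intro q hq
    rw [mem_filter, mem_Icc] at hq ⊢
    obtain ⟨h1, hp, i, h2, h3⟩ := hq
    refine ⟨h1, i, ?_, hp, h2, h3⟩
    by_contra h
    have := Pool.Agent.TH573.SM.tower_strictMono.monotone (not_lt.1 h)
    omega
  · filter_upwards [Pool.Agent.TH573.HY.main g hg v hv] with ω hω
    obtain ⟨f, ⟨hf, hfm⟩, hu⟩ := hω
    exact ⟨f, ⟨hf, fun Ps h1 h2 F hF s a b => hfm Ps ⟨h1, h2⟩ F hF s a b⟩, fun f' hf' =>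
      isModif_unique g _ ω f' f hf'.1 hf⟩

/-- Special case `Ps = {X + h : h ∈ A}`, `F = ∏_{t ∈ T} (X + t)`: the question Q1 for `ℓ ≥ 1`. -/
theorem shifts (Q : Set ℕ) (g f : ℕ →*₀ ℤ) (ω : ℕ → Bool) (v : ℕ → ℕ → ℝ) (_ : IsModif g Q ω f)
    (hfm : ∀ Ps : Finset ℤ[X], (∀ p ∈ Ps, Irreducible p ∧ 0 < p.natDegree) →
        (∀ p ∈ Ps, ∀ p' ∈ Ps, p ≠ p' → ¬ Associated p p') → ∀ F : ℤ[X],
        (¬ ∃ (c : ℤ) (S : Finset ℤ[X]) (G : ℤ[X]), S ⊆ Ps ∧
          F = C c * (∏ p ∈ S, p) * G ^ 2) → ∀ s a b : ℕ,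
        Tendsto (fun x : ℕ => (∑ n ∈ (Icc 1 x).filter (fun n => n ≡ a [MOD b]), v s n *
          (∏ p ∈ Ps, vonMangoldt (p.eval (n : ℤ)).natAbs) *
          ((f (F.eval (n : ℤ)).natAbs : ℤ) : ℝ)) / x) atTop (nhds 0)) :
    ∀ A T : Finset ℕ, T.Nonempty → Disjoint A T → ∀ s a b : ℕ,
        Tendsto (fun x : ℕ => (∑ n ∈ (Icc 1 x).filter (fun n => n ≡ a [MOD b]), v s n *
          (∏ h ∈ A, vonMangoldt (n + h)) * ∏ t ∈ T, ((f (n + t) : ℤ) : ℝ)) / x)
          atTop (nhds 0) := by
  intro A T hT hAT s a b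
  have h := Pool.Agent.TH573.HY.fam_shifts A
  refine (hfm _ h.1 h.2 _
    (Pool.Agent.TH573.HY.shifts_not A T hT hAT) s a b).congr fun x => ?_
  congr 1
  apply Finset.sum_congr rfl
  intro n _
  rw [Pool.Agent.TH573.HY.shifts_weight, Pool.Agent.TH573.HY.shifts_eval]
  push_cast
  rfl

end Pool.Agent.Results.MP_e6fa8b_nt.RandomThinSigns
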