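import Pool.Agent.TH882.L1
import Pool.Agent.Results.MP_3ec731_nt.ExactPatternsPlusAverage

/-!
# Sign patterns of the Liouville function along exact patterns of consecutive primes

The exponential sum bound for the Liouville function and the bilinear inequality for families of shifts
are from the starting files (`Pool.Agent.H807R2.Dav`, `Pool.Agent.H373R2`) and from
`Pool.Agent.TH823.Fam`.
-/

set_option autoImplicit false

open Finset Filter Topology

namespace Pool.Agent.Results.MP_e6fa8b_nt.SignPatternsAtClusters

/-- The Liouville function. -/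
def lam (n : ℕ) : ℤ := (-1) ^ ArithmeticFunction.cardFactors n

/-- `A` is admissible: for every prime `l` some residue class modulo `l` is not met by `A`. -/
def Admissible (A : Finset ℕ) : Prop := ∀ l : ℕ, l.Prime → ∃ n : ℤ, ∀ a ∈ A, ¬ (l : ℤ) ∣ n + a

/-- All `n + h`, `h ∈ H`, are prime, and no other integer between `n + min H` and `n + max H` is
prime. -/
def Consecutive (H : Finset ℕ) (n : ℕ) : Prop := (∀ h ∈ H, (n + h).Prime) ∧
  ∀ w, (∃ h ∈ H, h ≤ w) → (∃ h ∈ H, w ≤ h) → (n + w).Prime → w ∈ H

/-- The integers `1 ≤ n ≤ x` for which the `n + h`, `h ∈ H`, are consecutive primes and all `n + k i`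
are prime. -/
def places {r : ℕ} (H : Finset ℕ) (k : Fin r → ℕ) (x : ℕ) : Set ℕ :=
  {n : ℕ | (1 ≤ n ∧ n ≤ x) ∧ Consecutive H n ∧ ∀ i, (n + k i).Prime}

/-- The elements `n` of `P` at which the Liouville function has the sign pattern `ε` at the shifts
`F 0 (v 0), …, F (s - 1) (v (s - 1))`. -/
def withPattern {s : ℕ} (P : Set ℕ) (F : Fin s → Polynomial ℤ) (v : Fin s → ℕ) (ε : Fin s → ℤ) : Set ℕ :=
  {n : ℕ | n ∈ P ∧ ∀ j, lam (n + ((F j).eval (v j : ℤ)).toNat) = ε j}

/-- All `2 ^ s` sign patterns of the Liouville function at the shifts `F j (v j)` have the right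
frequency in `P`, with the relative error `1 / (log x) ^ U`. -/
def Equidistributed {s : ℕ} (P : Set ℕ) (F : Fin s → Polynomial ℤ) (v : Fin s → ℕ) (U x : ℕ) : Prop :=
  ∀ ε : Fin s → ℤ, (∀ j, ε j = 1 ∨ ε j = -1) →
    |((withPattern P F v ε).ncard : ℝ) - (P.ncard : ℝ) / 2 ^ s| ≤ (P.ncard : ℝ) / Real.log x ^ U

/-- For all boxes of vectors `v`, `1 ≤ v j ≤ y j`, of at least the size
`x / (log x) ^ C ≤ (y j) ^ (deg F j) ≤ κ x`, for all vectors `v` of the box with at most the proportion
`1 / (log x) ^ U` of exceptions the sign patterns at the shifts `F j (v j)` are equidistributed in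
`P`. -/
def AlmostAllShifts {s : ℕ} (P : Set ℕ) (F : Fin s → Polynomial ℤ) (κ C U x : ℕ) : Prop :=
  ∀ y : Fin s → ℕ, (∀ j, y j ^ (F j).natDegree ≤ κ * x) →
    (∀ j, (x : ℝ) ≤ Real.log x ^ C * (y j : ℝ) ^ (F j).natDegree) →
    ({v : Fin s → ℕ | (∀ j, 1 ≤ v j ∧ v j ≤ y j) ∧ ¬ Equidistributed P F v U x}.ncard : ℝ) ≤
      (∏ j, (y j : ℝ)) / Real.log x ^ U

/-- The vectors `k` with all `1 ≤ k i ≤ κ x` for which the union of `A` and of the set of the `k i` is
admissible, but such that there is no subset `H` of `A` with `m` elements for which the set of places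
has at least `x / (log x) ^ D` elements and almost all shifts give equidistributed sign patterns. -/
def exceptions {s : ℕ} (A : Finset ℕ) (F : Fin s → Polynomial ℤ) (m r D κ C U x : ℕ) :
    Set (Fin r → ℕ) :=
  {k : Fin r → ℕ | (∀ i, 1 ≤ k i ∧ k i ≤ κ * x) ∧ Admissible (A ∪ (univ : Finset (Fin r)).image k) ∧
    ¬ ∃ H ⊆ A, H.card = m ∧ (x : ℝ) / Real.log x ^ D ≤ ((places H k x).ncard : ℝ) ∧
      AlmostAllShifts (places H k x) F κ C U x}

/-- **Joint behaviour of primes and of the Liouville function.** For every `m` there is `K` such that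
for every `r` and every set `A` of at least `K` nonnegative integers there is `D` with the following
property, for every `s`, all nonconstant polynomials `F 0, …, F (s - 1)` with integer coefficients and
nonnegative values at the positive integers (for instance `F j = X`) and all `κ`, `C` and `U`. For all
vectors `k` of positive integers `k i ≤ κ x`, `i < r`, for which the union of `A` and of the set of the
`k i` is admissible, with at most `o(x ^ r)` exceptions, there is a subset `H` of `A` with `m` elements
such that for at least `x / (log x) ^ D` integers `1 ≤ n ≤ x` the `m` numbers `n + h`, `h ∈ H`, are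
consecutive primes and all `n + k i` are primes, and such that along these `n` all `2 ^ s` sign patterns
of `λ (n + F 0 (v 0)), …, λ (n + F (s - 1) (v (s - 1)))` have frequency `2 ^ (-s)` with a relative error
of at most `1 / (log x) ^ U`, for all vectors `v` of shifts with at most a proportion `1 / (log x) ^ U`
of exceptions. -/
theorem result (m : ℕ) : ∃ K : ℕ, ∀ (r : ℕ) (A : Finset ℕ), K ≤ A.card → ∃ D : ℕ,
    ∀ (s : ℕ) (F : Fin s → Polynomial ℤ), (∀ j, 1 ≤ (F j).natDegree) →
    (∀ j, ∀ v : ℕ, 1 ≤ v → 0 ≤ (F j).eval (v : ℤ)) → ∀ κ C U : ℕ,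
    Tendsto (fun x : ℕ => ((exceptions A F m r D κ C U x).ncard : ℝ) / (x : ℝ) ^ r) atTop (𝓝 0) := by
  classical
  obtain ⟨K, hK⟩ := Pool.Agent.Results.MP_3ec731_nt.ExactPatternsPlusAverage.result m
  refine ⟨K, fun r A hA => ?_⟩
  obtain ⟨D, hD⟩ := hK r A hA
  refine ⟨D, fun s F hd hpos κ C U => ?_⟩
  obtain ⟨N0, h0⟩ := Pool.Agent.TH882.LB.sev_fam F hd hpos (κ + 1) C (D + U) (by omega)
  have hlr : ∀ n, Pool.Agent.TH882.LB.lr n = (lam n : ℝ) := by
    intro n
    unfold Pool.Agent.TH882.LB.lr lam
    push_cast
    rfl
  have hsq : ∀ᶠ x : ℕ in atTop, ((exceptions A F m r D κ C U x).ncard : ℝ) / (x : ℝ) ^ r ≤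
      ((Pool.Agent.Results.MP_3ec731_nt.ExactPatternsPlusAverage.exceptions A m r D κ x).ncard : ℝ) /
        (x : ℝ) ^ r := by
    filter_upwards [eventually_ge_atTop (N0 + 3)] with x hx
    have hx3 : (3 : ℝ) ≤ x := by exact_mod_cast (by omega : 3 ≤ x)
    have hl1 : 1 ≤ Real.log x := by
      rw [Real.le_log_iff_exp_le (by linarith)]
      linarith [Real.exp_one_lt_d9]
    apply div_le_div_of_nonneg_right _ (by positivity)
    apply Nat.cast_le.2
    apply Set.ncard_le_ncard
    · intro k hk
      obtain ⟨h1, h2, h3⟩ := hk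
      refine ⟨h1, h2, ?_⟩
      rintro ⟨H, hH1, hH2, hH3⟩
      apply h3
      refine ⟨H, hH1, hH2, hH3, ?_⟩
      intro y hy1 hy2
      have hfin : (places H k x).Finite := by
        apply (finite_toSet (Icc 1 x)).subset
        intro n hn
        rw [mem_coe, mem_Icc]
        exact hn.1
      set S : Finset ℕ := hfin.toFinset with hS
      have hSS : S ⊆ Icc 1 x := by
        intro n hn
        rw [hS, Set.Finite.mem_toFinset] at hn
        rw [mem_Icc]
        exact hn.1
      have hSc : (places H k x).ncard = S.card := Set.ncard_eq_toFinset_card _ hfin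
      have hH3' : (x : ℝ) / Real.log x ^ D ≤ (S.card : ℝ) := by
        rw [← hSc]
        exact hH3
      have h4 := h0 x (by omega) y (fun j => (hy1 j).trans (Nat.mul_le_mul_right _ (by omega))) hy2 S hSS
        (fun v => ¬ Equidistributed (places H k x) F v U x) (by
        intro v hv hE
        by_contra hcon
        push Not at hcon
        apply hE
        intro ε hε
        have h5 := Pool.Agent.TH882.LB.pattern S (fun j n => ((F j).eval (v j : ℤ)).toNat)
          (fun j => (ε j : ℝ)) (by
            intro j
            rcases hε j with h6 | h6 <;> rw [h6] <;> norm_num)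
          ((x : ℝ) / Real.log x ^ (D + U)) (by positivity) (fun J hJ => hcon J hJ)
          (fun n => ∀ j, lam (n + ((F j).eval (v j : ℤ)).toNat) = ε j) (by
            intro n
            refine forall_congr' fun j => ?_
            rw [hlr]
            exact Int.cast_inj.symm)
        have h6 : ((withPattern (places H k x) F v ε).ncard : ℝ) =
            ((S.filter (fun n => ∀ j, lam (n + ((F j).eval (v j : ℤ)).toNat) = ε j)).card : ℝ) := by
          congr 1
          rw [← Set.ncard_coe_finset]
          congr 1
          ext n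
          rw [mem_coe, mem_filter, hS, Set.Finite.mem_toFinset]
          rfl
        rw [h6, hSc]
        refine h5.trans ?_
        rw [pow_add, ← div_div]
        exact div_le_div_of_nonneg_right hH3' (by positivity))
      have h7 : ({v : Fin s → ℕ | (∀ j, 1 ≤ v j ∧ v j ≤ y j) ∧
          ¬ Equidistributed (places H k x) F v U x}.ncard : ℝ) =
          (((Fintype.piFinset (fun j => Icc 1 (y j))).filter
            (fun v => ¬ Equidistributed (places H k x) F v U x)).card : ℝ) := by
        congr 1
        rw [← Set.ncard_coe_finset]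
        congr 1
        ext v
        rw [mem_coe, mem_filter, Fintype.mem_piFinset, Set.mem_setOf_eq]
        simp only [mem_Icc]
      rw [h7]
      refine h4.trans ?_
      apply div_le_div_of_nonneg_left (prod_nonneg fun _ _ => Nat.cast_nonneg _) (by positivity)
      exact pow_le_pow_right₀ hl1 (by omega)
    · apply (finite_toSet (Fintype.piFinset (fun _ : Fin r => Icc 1 (κ * x)))).subset
      intro k hk
      rw [mem_coe, Fintype.mem_piFinset]
      intro i
      rw [mem_Icc]
      exact hk.1 i
  exact tendsto_of_tendsto_of_tendsto_of_le_of_le' tendsto_const_nhds (hD κ)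
    (Eventually.of_forall fun x => by positivity) hsq

end Pool.Agent.Results.MP_e6fa8b_nt.SignPatternsAtClusters
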