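import Pool.Agent.TH893.FC.LogMax

/-!
# Products of von Mangoldt factors and of the Liouville function over unions of blocks of consecutive integers

The input is Davenport's theorem for the Liouville function with arbitrary powers of the logarithm, in the form
`Pool.Agent.TH823.Fam.fam_all` (helper823), which rests on the starting files (`Pool.Agent.H807R2.Dav`,
`Pool.Agent.H373R2`).
From Mathlib: `ArithmeticFunction.cardFactors n`: the number of the prime factors of `n` with multiplicity;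
`ArithmeticFunction.vonMangoldt`: the function `Λ`;
`Finset.Ioc Y X`: the integers `n` with `Y < n ≤ X`; `Finset.Ico u v`: the integers `j` with `u ≤ j < v`;
`Finset.Icc 1 H`: the integers from `1` to `H`; `Fintype.piFinset fun _ : Fin r => s`: the families of `r` elements
of the finite set `s`.
-/

set_option autoImplicit false

namespace Pool.Agent.Results.MP_e6fa8b_nt.UnionsOfBlocks

open Finset

/-- The Liouville function. -/
noncomputable def lam (n : ℕ) : ℝ := (-1 : ℝ) ^ ArithmeticFunction.cardFactors n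

/-- The product of the values of the Liouville function over the block between `n + u` and `n + v`. For `u ≤ v` it
is `λ(n + u) λ(n + u + 1) ... λ(n + v - 1)`. -/
noncomputable def block (u v n : ℕ) : ℝ := ∏ j ∈ Ico (min u v) (max u v), lam (n + j)

/-- The choices of the ends of `r` blocks: pairs of integers between `1` and `H`. -/
def ends (r H : ℕ) : Finset (Fin r → ℕ × ℕ) := Fintype.piFinset fun _ : Fin r => Icc 1 H ×ˢ Icc 1 H

/-- The weight `θ(n) Λ(a 1 n + h 1) ... Λ(a m n + h m)`. -/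
noncomputable def weight {m : ℕ} (θ : ℕ → ℂ) (a h : Fin m → ℕ) (n : ℕ) : ℂ :=
  θ n * ((∏ i, ArithmeticFunction.vonMangoldt (a i * n + h i) : ℝ) : ℂ)

/-- The sum over the interval `(Y, X]`, with the weights `w`, of the products over the `r` blocks with the ends
`M i + (k i).1` and `M' i + (k i).2`. -/
noncomputable def S (w : ℕ → ℂ) {r : ℕ} (M M' : Fin r → ℕ) (k : Fin r → ℕ × ℕ) (Y X : ℕ) : ℂ :=
  ∑ n ∈ Ioc Y X, w n * ((∏ i, block (M i + (k i).1) (M' i + (k i).2) n : ℝ) : ℂ)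

open Classical in
/-- The number of the elements of the finite set `I` with the property `E`. -/
noncomputable def num {α : Type} (I : Finset α) (E : α → Prop) : ℝ := ((I.filter E).card : ℝ)

lemma weight_norm (m B : ℕ) : ∃ N₀ : ℕ, ∀ N : ℕ, N₀ ≤ N → ∀ a h : Fin m → ℕ, (∀ i, a i ≤ N ^ B ∧ h i ≤ N ^ B) →
    ∀ θ : ℕ → ℂ, (∀ n, ‖θ n‖ ≤ 1) → ∀ n, n ≤ B * N → ‖weight θ a h n‖ ≤ Real.log N ^ (2 * m) := by
  obtain ⟨P3, hP3⟩ : ∃ P3 : ℕ, P3 = 3 ^ (B + 2) := ⟨_, rfl⟩
  refine ⟨B + P3 + 3, fun N hN a h hah θ hθ n hn => ?_⟩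
  have hN0 : (0 : ℝ) < N := by exact_mod_cast (by omega : 0 < N)
  have hlogB : ((B + 2 : ℕ) : ℝ) ≤ Real.log N := by
    rw [Real.le_log_iff_exp_le hN0]
    have h1 : Real.exp ((B + 2 : ℕ) : ℝ) ≤ (3 : ℝ) ^ (B + 2) := by
      rw [show ((B + 2 : ℕ) : ℝ) = ((B + 2 : ℕ) : ℝ) * 1 by ring, Real.exp_nat_mul]
      exact pow_le_pow_left₀ (Real.exp_pos _).le (by linarith [Real.exp_one_lt_d9]) _
    refine h1.trans ?_
    exact_mod_cast (by rw [← hP3]; omega : 3 ^ (B + 2) ≤ N)
  have hlog1 : 1 ≤ Real.log N := by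
    have : (1 : ℝ) ≤ ((B + 2 : ℕ) : ℝ) := by exact_mod_cast (by omega : 1 ≤ B + 2)
    linarith
  have hΛ : ∀ i, |ArithmeticFunction.vonMangoldt (a i * n + h i)| ≤ Real.log N ^ 2 := by
    intro i
    rw [abs_of_nonneg ArithmeticFunction.vonMangoldt_nonneg]
    refine ArithmeticFunction.vonMangoldt_le_log.trans ?_
    have e1 : a i * n + h i ≤ N ^ (B + 2) := by
      calc a i * n + h i ≤ N ^ B * (B * N) + N ^ B := add_le_add (Nat.mul_le_mul (hah i).1 hn) (hah i).2
        _ ≤ N ^ B * (B * N) + N ^ B * N := by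
            apply add_le_add le_rfl (Nat.le_mul_of_pos_right _ (by omega))
        _ = N ^ B * ((B + 1) * N) := by ring
        _ ≤ N ^ B * (N * N) := Nat.mul_le_mul_left _ (Nat.mul_le_mul_right _ (by omega))
        _ = _ := by rw [pow_add]; ring
    rcases Nat.eq_zero_or_pos (a i * n + h i) with h0 | h0
    · rw [h0]
      simp only [Nat.cast_zero, Real.log_zero]
      positivity
    · have e2 : Real.log ((a i * n + h i : ℕ) : ℝ) ≤ Real.log ((N ^ (B + 2) : ℕ) : ℝ) :=
        Real.log_le_log (by exact_mod_cast h0) (by exact_mod_cast e1)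
      refine e2.trans ?_
      rw [Nat.cast_pow, Real.log_pow, pow_two]
      exact mul_le_mul_of_nonneg_right hlogB (by linarith)
  unfold weight
  rw [norm_mul, Complex.norm_real, Real.norm_eq_abs, abs_prod]
  have e1 : ∏ i, |ArithmeticFunction.vonMangoldt (a i * n + h i)| ≤ ∏ _i : Fin m, Real.log N ^ 2 :=
    prod_le_prod (fun _ _ => abs_nonneg _) fun i _ => hΛ i
  rw [prod_const, card_univ, Fintype.card_fin, ← pow_mul] at e1
  calc _ ≤ 1 * Real.log N ^ (2 * m) := mul_le_mul (hθ _) e1 (prod_nonneg fun _ _ => abs_nonneg _) zero_le_one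
    _ = Real.log N ^ (2 * m) := one_mul _

lemma S_eq (w : ℕ → ℂ) {r : ℕ} (M M' : Fin r → ℕ) (k : Fin r → ℕ × ℕ) (Y X : ℕ) :
    S w M M' k Y X = Pool.Agent.TH893.FC.T
        (fun i => Pool.Agent.TH893.FC.G2 (Pool.Agent.TH893.CL.lr 1 0) (M i) (M' i)) w k Y X := by
  rw [Pool.Agent.TH893.FC.T_blk]
  unfold S
  refine sum_congr rfl fun n _ => ?_
  congr 2
  refine prod_congr rfl fun i _ => ?_
  unfold block Pool.Agent.TH893.FC.blk lam
  simp only [one_mul, add_zero]

/-- Let `m`, `B`, `C` and `A` be fixed, let `N` be large and let `N / log ^ C N ≤ H ≤ N`. Let `a i n + h i`, `i < m`,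
be arbitrary linear forms with non-negative coefficients `≤ N ^ B`, let `θ : ℕ → ℂ` be an arbitrary function bounded
by `1`, let `w(n) = θ(n) ∏ i, Λ(a i n + h i)` and let `V` be the sum of `|w(n)|` over `n ≤ B N`. Let `r ≤ log N` and
let `2 r` windows `(M i, M i + H]`, `(M' i, M' i + H]` for the ends of `r` blocks be given, where
`M i, M' i ≤ B N` are arbitrary.

* The mean square, over all the `H ^ (2 r)` choices of the ends in the windows, of the largest of the sums over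
  intervals `(Y, X]` with `X ≤ B N` of `w(n)` times the product of the Liouville function over the `r` blocks is at
  most `32 V ^ 2 / 4 ^ r + N ^ 2 / log ^ A N`. (`Y` and `X` may be arbitrary functions of the ends.)
* If `log ^ (-A) N ≤ δ` and `4 ^ r ≥ 32 / δ ^ 3` then for all the choices of the ends with at most `δ H ^ (2 r)`
  exceptions the sums are at most `δ V + N / log ^ A N` on all the intervals `(Y, X]` with `X ≤ B N`
  simultaneously. -/
theorem result (m B C A : ℕ) : ∃ N₀ : ℕ, ∀ N H : ℕ, N₀ ≤ N → H ≤ N → (N : ℝ) ≤ Real.log N ^ C * H →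
    ∀ a h : Fin m → ℕ, (∀ i, a i ≤ N ^ B ∧ h i ≤ N ^ B) → ∀ θ : ℕ → ℂ, (∀ n, ‖θ n‖ ≤ 1) →
    ∀ r : ℕ, (r : ℝ) ≤ Real.log N → ∀ M M' : Fin r → ℕ, (∀ i, M i ≤ B * N ∧ M' i ≤ B * N) →
      (∀ Y X : (Fin r → ℕ × ℕ) → ℕ, (∀ k, Y k ≤ X k ∧ X k ≤ B * N) →
        ∑ k ∈ ends r H, ‖S (weight θ a h) M M' k (Y k) (X k)‖ ^ 2 ≤
          (H : ℝ) ^ (2 * r) * (32 * (∑ n ∈ Ioc 0 (B * N), ‖weight θ a h n‖) ^ 2 / 4 ^ r +
            N ^ 2 / Real.log N ^ A)) ∧
      (∀ δ : ℝ, 1 / Real.log N ^ A ≤ δ → 32 / δ ^ 3 ≤ 4 ^ r →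
        num (ends r H) (fun k => ¬ ∀ Y X : ℕ, Y ≤ X → X ≤ B * N → ‖S (weight θ a h) M M' k Y X‖ ≤
          δ * (∑ n ∈ Ioc 0 (B * N), ‖weight θ a h n‖) + N / Real.log N ^ A) ≤ δ * (H : ℝ) ^ (2 * r)) := by
  obtain ⟨N₁, h1⟩ := Pool.Agent.TH893.FC.maxW B C (2 * m) A
  obtain ⟨N₂, h2⟩ := Pool.Agent.TH893.FC.uniW B C (2 * m) A
  obtain ⟨N₃, h3⟩ := weight_norm m B
  refine ⟨max N₁ (max N₂ N₃), fun N H hN hHN hC a h hah θ hθ r hr M M' hM => ?_⟩
  have hN1 : N₁ ≤ N := (le_max_left _ _).trans hN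
  have hN2 : N₂ ≤ N := (le_max_left _ _).trans ((le_max_right _ _).trans hN)
  have hN3 : N₃ ≤ N := (le_max_right _ _).trans ((le_max_right _ _).trans hN)
  have hw : ∀ n, 1 ≤ n → n ≤ B * N → ‖weight θ a h n‖ ≤ Real.log N ^ (2 * m) :=
    fun n _ hn => h3 N hN3 a h hah θ hθ n hn
  refine ⟨?_, ?_⟩
  · intro Y X hYX
    simp only [S_eq]
    exact h1 N H hN1 hHN hC r hr M M' (fun i => (hM i).1) (fun i => (hM i).2) _ hw Y X hYX
  · intro δ hδ hrδ
    refine le_trans (le_of_eq ?_) (h2 N H hN2 hHN hC r hr M M' (fun i => (hM i).1) (fun i => (hM i).2) _ hw δ hδ hrδ)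
    unfold num ends Pool.Agent.TH893.FC.numA
    congr 2
    ext k
    simp only [mem_filter, S_eq]

end Pool.Agent.Results.MP_e6fa8b_nt.UnionsOfBlocks
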